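import Mathlib
import Pool.Agent.Lib.MP_893ae4_an.Main

namespace Pool.Agent.Results.MP_893ae4_an.AbstractAmenability

open Pool.Agent.Lib.MP_893ae4_an
open scoped NNReal

/-- For the operator-algebraic data `(C₀ᵘ(Γ), Δᵤ, εᵤ, Λ, L¹(Γ))` of a quantum group `Γ = Ĝ` with
`C₀ᵘ(Γ)` separable: `G` is strongly amenable (the reducing morphism `Λ` of `Ĝ` is injective) if
and only if there is a weak*-continuous convolution semigroup of states `(μ t)_{t ≥ 0}` on `Ĝ`
with `μ t ∈ L¹(Ĝ)` for all `t > 0`. -/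
theorem result {A H : Type*} [NonUnitalCStarAlgebra A] [TopologicalSpace.SeparableSpace A]
    [NormedAddCommGroup H] [InnerProductSpace ℂ H] [CompleteSpace H]
    (D : QuantumGroupData A H) :
    D.StronglyAmenable ↔
      ∃ μ : ℝ≥0 → StrongDual ℂ A, D.IsConvolutionSemigroup μ ∧ ∀ t, 0 < t → MemL1 D.rep (μ t) :=
  stronglyAmenable_iff D

end Pool.Agent.Results.MP_893ae4_an.AbstractAmenability
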