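import Pool.Agent.Lib.MP_893ae4_anV.BridgeQ

/-!
# Strong amenability and absolutely continuous convolution semigroups (MP_893ae4_an, Q1)

`Q : QuantumGroup H K` is the von Neumann algebraic data of the locally compact quantum group
`Ĝ` of the problem: `Q.M = L^∞(Ĝ)` on `H = L²(Ĝ)`, the comultiplication `Q.Δ`, and the left and
right regular unitaries `Q.W`, `Q.V` on `K = H ⊗ H`. The slices `(id ⊗ ω_{ξ,η})(W)`, written
`sliceR Q.T Q.W ξ η`, span a norm dense subspace of `C₀(Ĝ)`. All the definitions are in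
`Pool/Agent/Lib/MP_893ae4_anV/LCQGDefs.lean`.

If `L²(Ĝ)` is separable (second countability), then `Ĝ` is co-amenable if and only if there is a
weak* continuous convolution semigroup of states on `Ĝ` lying in `L¹(Ĝ)` for all `t > 0`; the
semigroup can then be chosen norm continuous on `(0, ∞)` and a two-sided approximate identity of
`L¹(Ĝ)` at `0`.
-/

open Pool.Agent.Lib.MP_893ae4_anV Pool.Agent.Lib.MP_893ae4_anV.LCQG

namespace Pool.Agent.Results.MP_893ae4_an.StrongAmenability

variable {H K : Type*} [NormedAddCommGroup H] [InnerProductSpace ℂ H] [CompleteSpace H]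
  [NormedAddCommGroup K] [InnerProductSpace ℂ K] [CompleteSpace K]

/-- **Main theorem** (affirmative answer to Q1). -/
theorem result (Q : LCQG.QuantumGroup H K) [TopologicalSpace.SeparableSpace H] :
    List.TFAE [LCQG.CoAmenable Q,
      ∃ μ : ℝ → (H →L[ℂ] H) → ℂ, LCQG.IsSemigroup Q μ,
      ∃ μ : ℝ → (H →L[ℂ] H) → ℂ, LCQG.IsSemigroup Q μ ∧ LCQG.IsStronglyContinuous Q μ] := by
  tfae_have 1 → 3 := fun h => Bridge.exists_semigroup_of_coAmenable Q h
  tfae_have 3 → 2 := fun ⟨μ, h, _⟩ => ⟨μ, h⟩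
  tfae_have 2 → 1 := fun ⟨μ, h⟩ => Bridge.coAmenable_of_semigroup Q μ h
  tfae_finish

end Pool.Agent.Results.MP_893ae4_an.StrongAmenability
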